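import Pool.Agent.Lib.MP_528c50_co.Cs2.Step

/-! The order of the vertices of a graph given by small sides of cut vertices. -/

namespace Pool.Agent.Lib.MP_528c50_co.Cs

open Finset Relation

variable {K : Type} (X : SimpleGraph K)

/-- No third vertex separates `x` from `y`. -/
def Insep (x y : K) : Prop := ∀ w, w ≠ x → w ≠ y → ∃ p : X.Walk x y, w ∉ p.support

/-- `y` is reached from `x` without passing through `s`. -/
def Av (s : Option K) (x y : K) : Prop :=
  ReflTransGen (fun a b => X.Adj a b ∧ some a ≠ s ∧ some b ≠ s) x y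

variable [Fintype K] [DecidableEq K]

open Classical in
/-- The component of `x` after the removal of `s`. -/
noncomputable def cmp (s : Option K) (x : K) : Finset K := univ.filter (Av X s x)

/-- `x` lies in a small component of the graph without `w`. -/
def Bel (x w : K) : Prop :=
  x ≠ w ∧ w ∈ cmp X none x ∧ 2 * (cmp X (some w) x).card < (cmp X none x).card

open Classical in
/-- The vertex `v` and the vertices below it. -/
noncomputable def fib (v : K) : Finset K := univ.filter fun x => x = v ∨ Bel X x v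

/-- The parts of `fib X v`. -/
noncomputable def chV (v x : K) : Finset K := if x = v then {v} else cmp X (some v) x

variable {X} {Γ : Subgroup (Equiv.Perm K)}
  (hΓ : ∀ g : Equiv.Perm K, g ∈ Γ ↔ ∀ a b, X.Adj (g a) (g b) ↔ X.Adj a b)

theorem mem_fib {v x : K} : x ∈ fib X v ↔ x = v ∨ Bel X x v := by simp [fib]

omit [DecidableEq K] in
theorem mem_cmp {s : Option K} {x y : K} : y ∈ cmp X s x ↔ Av X s x y := by simp [cmp]

section

omit [Fintype K] [DecidableEq K]

theorem Av.symm {s : Option K} {x y : K} (h : Av X s x y) : Av X s y x := by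
  induction h with
  | refl => exact .refl
  | tail _ a ih => exact .head ⟨a.1.symm, a.2.2, a.2.1⟩ ih

theorem Av.ind {s : Option K} {x y : K} (h : Av X s x y) {P : K → Prop} (h0 : P x)
    (h1 : ∀ a b, Av X s x a → P a → X.Adj a b → some a ≠ s → some b ≠ s → P b) : P y := by
  induction h with
  | refl => exact h0
  | tail a b ih => exact h1 _ _ a ih b.1 b.2.1 b.2.2

theorem Av.step {s : Option K} {x a b : K} (h : Av X s x a) (e : X.Adj a b) (ha : some a ≠ s)
    (hb : some b ≠ s) : Av X s x b := ReflTransGen.tail h ⟨e, ha, hb⟩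

theorem Av.none {s : Option K} {x y : K} (h : Av X s x y) : Av X none x y :=
  h.ind (P := Av X Option.none x) .refl fun _ _ _ a e _ _ => a.step e (by simp) (by simp)

theorem Av.ne {v x y : K} (h : Av X (some v) x y) (hx : x ≠ v) : y ≠ v :=
  h.ind (P := (· ≠ v)) hx fun _ _ _ _ _ _ a e => a (congrArg some e)

theorem Av.avoid {s : Option K} {w x y : K} (h : Av X s x y) (hw : ¬ Av X s x w) :
    Av X (some w) x y :=
  h.ind (P := Av X (some w) x) .refl fun _ _ a p e c d =>
    p.step e (fun r => hw (Option.some_injective _ r ▸ a))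
      fun r => hw (Option.some_injective _ r ▸ a.step e c d)

theorem Av.walk {w x y : K} (h : Av X (some w) x y) (hx : x ≠ w) :
    ∃ p : X.Walk x y, w ∉ p.support := by
  refine h.ind (P := fun y => ∃ p : X.Walk x y, w ∉ p.support) ⟨.nil, by simpa using hx.symm⟩ ?_
  rintro a b - ⟨p, hp⟩ e - d
  refine ⟨p.concat e, ?_⟩
  rw [SimpleGraph.Walk.support_concat, List.mem_append, List.mem_singleton]
  exact fun r => r.elim hp fun r => d (congrArg some r.symm)

theorem Av.last {v x : K} (h : Av X Option.none x v) (hx : x ≠ v) :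
    ∃ a, Av X (some v) x a ∧ X.Adj a v := by
  by_contra hn
  refine Av.ne (h.ind (P := Av X (some v) x) .refl fun a b _ p e _ _ => ?_) hx rfl
  exact p.step e (fun r => p.ne hx (Option.some_injective _ r))
    fun r => hn ⟨a, p, Option.some_injective _ r ▸ e⟩

end

theorem cmp_self (s : Option K) (x : K) : x ∈ cmp X s x := mem_cmp.2 .refl

theorem cmp_eq {s : Option K} {x y : K} (h : Av X s x y) : cmp X s y = cmp X s x := by
  ext z
  rw [mem_cmp, mem_cmp]
  exact ⟨fun a => ReflTransGen.trans h a, fun a => ReflTransGen.trans h.symm a⟩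

theorem Bel.of_av {v x y : K} (h : Bel X x v) (a : Av X (some v) x y) : Bel X y v := by
  refine ⟨a.ne h.1, ?_, ?_⟩
  · rw [cmp_eq a.none]
    exact h.2.1
  · rw [cmp_eq a.none, cmp_eq a]
    exact h.2.2

theorem cmp_lt {v x : K} (h : Bel X x v) : (cmp X (some v) x).card < (fib X v).card :=
  card_lt_card ⟨fun _ a => mem_fib.2 (Or.inr (h.of_av (mem_cmp.1 a))),
    fun a => (mem_cmp.1 (a (mem_fib.2 (Or.inl rfl)))).ne h.1 rfl⟩

theorem Bel.asymm {v w : K} (h : Bel X v w) (h' : Bel X w v) : False := by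
  have h1 : cmp X none v ⊆ cmp X (some w) v ∪ cmp X (some v) w := fun y hy => by
    rw [mem_union, mem_cmp, mem_cmp]
    refine (mem_cmp.1 hy).ind (P := fun y => Av X (some w) v y ∨ Av X (some v) w y)
      (Or.inl .refl) ?_
    rintro a b - (p | p) e - -
    · rcases eq_or_ne b w with rfl | r
      · exact Or.inr .refl
      · exact Or.inl (p.step e (by simpa using p.ne h.1) (by simpa using r))
    · rcases eq_or_ne b v with rfl | r
      · exact Or.inl .refl
      · exact Or.inr (p.step e (by simpa using p.ne h'.1) (by simpa using r))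
  have h2 := (card_le_card h1).trans (card_union_le _ _)
  have h3 := h.2.2
  have h4 := h'.2.2
  rw [cmp_eq (mem_cmp.1 h.2.1)] at h4
  omega

theorem Bel.av {x v w : K} (h : Bel X x v) (h' : Bel X v w) : Av X (some w) x v := by
  have hw : ¬ Av X (some v) x w := fun a => h'.asymm (h.of_av a)
  obtain ⟨a, p, e⟩ := (mem_cmp.1 h.2.1).last h.1
  exact (p.avoid hw).step e (fun r => hw (Option.some_injective _ r ▸ p)) (by simpa using h'.1)

theorem Bel.trans {x v w : K} (h : Bel X x v) (h' : Bel X v w) : Bel X x w :=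
  h'.of_av (h.av h').symm

theorem Bel.nest {x v w : K} (h : Bel X x v) (h' : Bel X x w) :
    v = w ∨ Bel X v w ∨ Bel X w v := by
  by_contra hn
  rw [not_or, not_or] at hn
  have hv : ¬ Av X (some w) x v := fun a => hn.2.1 (h'.of_av a)
  have hw : ¬ Av X (some v) x w := fun a => hn.2.2 (h.of_av a)
  obtain ⟨a, p, e⟩ := (mem_cmp.1 h.2.1).last h.1
  exact hv ((p.avoid hw).step e (fun r => hw (Option.some_injective _ r ▸ p))
    (by simpa using hn.1))

theorem fib_nest {x v w : K} (h : x ∈ fib X v) (h' : x ∈ fib X w) :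
    v = w ∨ Bel X v w ∨ Bel X w v := by
  rcases mem_fib.1 h with rfl | a <;> rcases mem_fib.1 h' with rfl | b
  · exact Or.inl rfl
  · exact Or.inr (Or.inl b)
  · exact Or.inr (Or.inr a)
  · exact a.nest b

theorem Bel.fib_sub {v w : K} (h : Bel X v w) : fib X v ⊆ fib X w := fun _ a =>
  mem_fib.2 (Or.inr ((mem_fib.1 a).elim (fun e => e ▸ h) fun b => b.trans h))

theorem Bel.fib_lt {v w : K} (h : Bel X v w) : (fib X v).card < (fib X w).card :=
  card_lt_card ⟨h.fib_sub, fun a =>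
    (mem_fib.1 (a (mem_fib.2 (Or.inl rfl)))).elim (fun e => h.1 e.symm) h.asymm⟩

theorem av_of_not_bel {t t' w : K} (a : Av X none t w) (a' : Av X none t' w) (h : t ≠ w)
    (h' : t' ≠ w) (b : ¬ Bel X t w) (b' : ¬ Bel X t' w) : Av X (some w) t t' := by
  by_contra hn
  have h1 : Disjoint (cmp X (some w) t) (cmp X (some w) t') := disjoint_left.2 fun y p q =>
    hn (ReflTransGen.trans (mem_cmp.1 p) (mem_cmp.1 q).symm)
  have h2 : cmp X (some w) t ∪ cmp X (some w) t' ⊂ cmp X none w := by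
    refine ⟨fun y hy => ?_, fun r => ?_⟩
    · rcases mem_union.1 hy with p | p
      · exact mem_cmp.2 (ReflTransGen.trans a.symm (mem_cmp.1 p).none)
      · exact mem_cmp.2 (ReflTransGen.trans a'.symm (mem_cmp.1 p).none)
    · rcases mem_union.1 (r (cmp_self _ _)) with p | p
      · exact (mem_cmp.1 p).ne h rfl
      · exact (mem_cmp.1 p).ne h' rfl
  have h3 := card_lt_card h2
  rw [card_union_of_disjoint h1] at h3
  have h4 := not_lt.1 fun r => b ⟨h, mem_cmp.2 a, r⟩
  have h5 := not_lt.1 fun r => b' ⟨h', mem_cmp.2 a', r⟩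
  rw [← cmp_eq a] at h4
  rw [← cmp_eq a'] at h5
  omega

include hΓ

omit [Fintype K] [DecidableEq K] in
theorem av_map {g : Equiv.Perm K} (hg : g ∈ Γ) {s : Option K} {x y : K} :
    Av X (s.map g) (g x) (g y) ↔ Av X s x y := by
  have key : ∀ g ∈ Γ, ∀ (s : Option K) (x y : K), Av X s x y → Av X (s.map g) (g x) (g y) :=
    fun g hg s x y h => h.ind (P := fun y => Av X (s.map g) (g x) (g y)) .refl
      fun a b _ p e c d => p.step (((hΓ g).1 hg a b).2 e)
        (fun r => c (Option.map_injective g.injective r))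
        fun r => d (Option.map_injective g.injective r)
  refine ⟨fun h => ?_, key g hg s x y⟩
  have := key _ (Γ.inv_mem hg) _ _ _ h
  cases s <;> simpa using this

theorem cmp_map {g : Equiv.Perm K} (hg : g ∈ Γ) {s : Option K} {x z : K} :
    z ∈ cmp X s x ↔ g z ∈ cmp X (s.map g) (g x) := by
  rw [mem_cmp, mem_cmp, av_map hΓ hg]

theorem cmp_card {g : Equiv.Perm K} (hg : g ∈ Γ) (s : Option K) (x : K) :
    (cmp X s x).card = (cmp X (s.map g) (g x)).card :=
  card_equiv g fun _ => cmp_map hΓ hg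

theorem bel_map {g : Equiv.Perm K} (hg : g ∈ Γ) {x w : K} : Bel X (g x) (g w) ↔ Bel X x w := by
  unfold Bel
  rw [cmp_card hΓ hg (some w) x, cmp_card hΓ hg none x, cmp_map hΓ hg (x := x), g.injective.ne_iff]
  rfl

theorem fib_map' {g : Equiv.Perm K} (hg : g ∈ Γ) {p z : K} : z ∈ fib X p ↔ g z ∈ fib X (g p) := by
  rw [mem_fib, mem_fib, bel_map hΓ hg, g.injective.eq_iff]

theorem fib_map {g : Equiv.Perm K} (hg : g ∈ Γ) {p p' : K} :
    (∀ z, z ∈ fib X p ↔ g z ∈ fib X p') ↔ g p = p' := by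
  refine ⟨fun h => ?_, fun h z => h ▸ fib_map' hΓ hg⟩
  obtain ⟨q, rfl⟩ := g.surjective p'
  rcases mem_fib.1 ((h p).1 (mem_fib.2 (Or.inl rfl))) with a | a
  · exact a
  rcases mem_fib.1 ((h q).2 (mem_fib.2 (Or.inl rfl))) with b | b
  · rw [b]
  · exact (b.asymm ((bel_map hΓ hg).1 a)).elim

theorem fib_fix {g : Equiv.Perm K} (hg : g ∈ Γ) {v x : K} (h : x ∈ fib X v) (h' : g x ∈ fib X v) :
    g v = v := by
  have e : (fib X v).card = (fib X (g v)).card := card_equiv g fun _ => fib_map' hΓ hg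
  rcases fib_nest ((fib_map' hΓ hg).1 h) h' with a | a | a
  · exact a
  · exact absurd e a.fib_lt.ne'
  · exact absurd e a.fib_lt.ne

theorem glue {g : Equiv.Perm K} (hg : g ∈ Γ) {A B : Finset K} {s : Option K} (hs : s.map g = s)
    (hAB : ∀ z, z ∈ A ↔ g z ∈ B) (hd : A = B ∨ Disjoint A B)
    (hA : ∀ a ∈ A, some a ≠ s ∧ ∀ b, X.Adj a b → some b ≠ s → b ∈ A) :
    ∃ h ∈ Γ, (∀ z ∈ A, h z = g z) ∧ ∀ z, z ∉ A → z ∉ B → h z = z := by
  have ha := (hΓ g).1 hg
  have hs' : ∀ b, some (g b) = s ↔ some b = s := fun b => by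
    cases s with
    | none => simp
    | some v =>
      have e : g v = v := by simpa using hs
      rw [Option.some_inj, Option.some_inj, ← g.injective.eq_iff (a := b), e]
  have hs2 : ∀ b, some b = s → g b = b := fun b e => by
    subst e
    simpa using hs
  obtain ⟨f, f1, f2, f3⟩ : ∃ f : K → K, (∀ z ∈ A, f z = g z) ∧
      (∀ z ∈ A, g z ∉ A → f (g z) = z) ∧ ∀ z, z ∉ A → z ∉ B → f z = z :=
    ⟨fun z => if z ∈ A then g z else if z ∈ B then g.symm z else z, fun z a => if_pos a,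
      fun z a b => by simp [b, (hAB z).1 a], fun z a b => by simp [a, b]⟩
  have tri : ∀ z, z ∈ A ∨ (∃ y ∈ A, g y ∉ A ∧ z = g y) ∨ (z ∉ A ∧ z ∉ B) := fun z => by
    by_cases a : z ∈ A
    · exact Or.inl a
    by_cases b : z ∈ B
    · obtain ⟨y, rfl⟩ := g.surjective z
      exact Or.inr (Or.inl ⟨y, (hAB y).2 b, a, rfl⟩)
    · exact Or.inr (Or.inr ⟨a, b⟩)
  have dis : ∀ y ∈ A, g y ∉ A → ∀ z ∈ A, z ∉ B := fun y a b z c d => by
    rcases hd with e | e
    · exact b (e ▸ (hAB y).1 a)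
    · exact disjoint_left.1 e c d
  have out : ∀ a ∈ A, ∀ c, c ∉ A → c ∉ B → (X.Adj (g a) c ↔ X.Adj a c) := fun a p c q r => by
    by_cases e : some c = s
    · rw [← ha a c, hs2 c e]
    refine ⟨fun t => ?_, fun t => (q ((hA a p).2 c t e)).elim⟩
    obtain ⟨c, rfl⟩ := g.surjective c
    exact (r ((hAB c).1 ((hA a p).2 c ((ha a c).1 t) (mt (hs' c).2 e)))).elim
  have mid : ∀ a ∈ A, ∀ y ∈ A, g y ∉ A → (X.Adj (g a) y ↔ X.Adj a (g y)) := fun a p y q r => by
    refine ⟨fun t => ?_, fun t => (r ((hA a p).2 _ t (mt (hs' y).1 (hA y q).1))).elim⟩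
    exact (dis y q r _ ((hA y q).2 _ t.symm (mt (hs' a).1 (hA a p).1)) ((hAB a).1 p)).elim
  have fi : Function.Injective f := fun x y e => by
    rcases tri x with a | ⟨x, a, a', rfl⟩ | ⟨a, a'⟩ <;>
      rcases tri y with b | ⟨y, b, b', rfl⟩ | ⟨b, b'⟩
    · exact g.injective (by rwa [f1 x a, f1 y b] at e)
    · rw [f1 x a, f2 y b b'] at e
      exact (dis y b b' y b (e ▸ (hAB x).1 a)).elim
    · rw [f1 x a, f3 y b b'] at e
      exact (b' (e ▸ (hAB x).1 a)).elim
    · rw [f1 y b, f2 x a a'] at e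
      exact (dis x a a' x a (e ▸ (hAB y).1 b)).elim
    · rw [f2 x a a', f2 y b b'] at e
      rw [e]
    · rw [f2 x a a', f3 y b b'] at e
      exact (b (e ▸ a)).elim
    · rw [f1 y b, f3 x a a'] at e
      exact (a' (e ▸ (hAB y).1 b)).elim
    · rw [f2 y b b', f3 x a a'] at e
      exact (a (e ▸ b)).elim
    · rwa [f3 x a a', f3 y b b'] at e
  refine ⟨Equiv.ofBijective f (Finite.injective_iff_bijective.1 fi), (hΓ _).2 fun x y => ?_, f1, f3⟩
  rw [Equiv.ofBijective_apply, Equiv.ofBijective_apply]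
  rcases tri x with a | ⟨x, a, a', rfl⟩ | ⟨a, a'⟩ <;>
    rcases tri y with b | ⟨y, b, b', rfl⟩ | ⟨b, b'⟩
  · rw [f1 x a, f1 y b, ha]
  · rw [f1 x a, f2 y b b', mid x a y b b']
  · rw [f1 x a, f3 y b b', out x a y b b']
  · rw [f1 y b, f2 x a a', X.adj_comm, mid y b x a a', X.adj_comm]
  · rw [f2 x a a', f2 y b b', ha]
  · rw [f2 x a a', f3 y b b', out x a y b b']
  · rw [f1 y b, f3 x a a', X.adj_comm, out y b x a a', X.adj_comm]
  · rw [f2 y b b', f3 x a a', X.adj_comm, ← out y b x a a', X.adj_comm]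
  · rw [f3 x a a', f3 y b b']

theorem glue_cmp {g : Equiv.Perm K} (hg : g ∈ Γ) {s : Option K} (hs : s.map g = s) {x : K}
    (hx : some x ≠ s) : ∃ h ∈ Γ, (∀ z ∈ cmp X s x, h z = g z) ∧
      ∀ z, z ∉ cmp X s x → z ∉ cmp X s (g x) → h z = z := by
  have h0 : ∀ a, Av X s x a → some a ≠ s := fun a p =>
    p.ind (P := fun a => some a ≠ s) hx fun _ _ _ _ _ _ d => d
  refine glue hΓ hg hs (fun z => by rw [cmp_map hΓ hg, hs]) ?_ fun a p =>
    ⟨h0 a (mem_cmp.1 p), fun b e d => mem_cmp.2 ((mem_cmp.1 p).step e (h0 a (mem_cmp.1 p)) d)⟩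
  refine (em (Av X s x (g x))).imp (fun a => (cmp_eq a).symm) fun a => disjoint_left.2 fun y p q =>
    a (ReflTransGen.trans (mem_cmp.1 p) (mem_cmp.1 q).symm)

theorem nodeT : Node Γ univ (cmp X none) ∧ Sw Γ univ (cmp X none) := by
  refine ⟨⟨fun x _ => cmp_self _ x, fun x _ y hy => ⟨mem_univ _, cmp_eq (mem_cmp.1 hy)⟩,
    fun g hg _ _ _ y _ => ⟨mem_univ _, fun z => cmp_map hΓ hg⟩, fun g hg x _ hx => ?_⟩,
    fun g hg x _ _ _ => glue_cmp hΓ hg rfl (by simp)⟩
  obtain ⟨h, hh, h1, h2⟩ := glue_cmp hΓ hg (s := none) rfl (x := x) (by simp)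
  exact ⟨h, hh, h1, fun z a => h2 z a (by rwa [cmp_eq (mem_cmp.1 hx)])⟩

theorem nodeV (v : K) : Node Γ (fib X v) (chV X v) ∧ Sw Γ (fib X v) (chV X v) := by
  have c1 : chV X v v = {v} := if_pos rfl
  have c2 : ∀ x, x ≠ v → chV X v x = cmp X (some v) x := fun x a => if_neg a
  have sub : ∀ x ∈ fib X v, ∀ y ∈ chV X v x, y ∈ fib X v ∧ chV X v y = chV X v x := by
    intro x hx y hy
    rcases mem_fib.1 hx with rfl | a
    · rw [c1, mem_singleton] at hy
      rw [hy]
      exact ⟨hx, rfl⟩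
    · rw [c2 x a.1, mem_cmp] at hy
      rw [c2 x a.1, c2 y (hy.ne a.1), cmp_eq hy]
      exact ⟨mem_fib.2 (Or.inr (a.of_av hy)), rfl⟩
  refine ⟨⟨fun x _ => ?_, sub, fun g hg x a b y hy => ?_, fun g hg x a b => ?_⟩,
    fun g hg x a b c => ?_⟩
  · rcases eq_or_ne x v with rfl | a
    · rw [c1]
      exact mem_singleton_self _
    · rw [c2 x a]
      exact cmp_self _ _
  · have e := fib_fix hΓ hg a b
    refine ⟨((fib_map hΓ hg).2 e y).1 hy, fun z => ?_⟩
    rcases eq_or_ne y v with rfl | c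
    · rw [e, c1, mem_singleton, mem_singleton, ← g.injective.eq_iff, e]
    · rw [c2 y c, c2 _ (fun r => c (g.injective (r.trans e.symm))), cmp_map hΓ hg,
        Option.map_some, e]
  · have e := fib_fix hΓ hg a (sub x a _ b).1
    rcases eq_or_ne x v with rfl | c
    · refine ⟨1, Γ.one_mem, fun z hz => ?_, fun _ _ => rfl⟩
      rw [c1, mem_singleton] at hz
      rw [hz, e]
      rfl
    · rw [c2 x c] at b ⊢
      obtain ⟨h, hh, h1, h2⟩ := glue_cmp hΓ hg (s := some v) (by simpa using e) (x := x)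
        (by simpa using c)
      exact ⟨h, hh, h1, fun z a => h2 z a (by rwa [cmp_eq (mem_cmp.1 b)])⟩
  · have e := fib_fix hΓ hg a b
    rcases eq_or_ne x v with rfl | d
    · rw [e, c1] at c
      exact (c (mem_singleton_self _)).elim
    · rw [c2 x d, c2 _ fun r => d (g.injective (r.trans e.symm))]
      exact glue_cmp hΓ hg (by simpa using e) (by simpa using d)

theorem nodeB {s : Option K} {x₀ : K} (h : ∀ v, s = some v → Bel X x₀ v) :
    ∃ top : K → K, Node Γ (cmp X s x₀) (fun y => fib X (top y)) ∧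
      ∀ y ∈ cmp X s x₀, ∀ y' ∈ cmp X s x₀, Insep X (top y) (top y') := by
  have sub : ∀ t ∈ cmp X s x₀, ∀ y ∈ fib X t, y ∈ cmp X s x₀ := fun t ht y hy => by
    rcases mem_fib.1 hy with rfl | a
    · exact ht
    refine mem_cmp.2 (ReflTransGen.trans (mem_cmp.1 ht) (Av.symm ?_))
    cases s with
    | none => exact mem_cmp.1 a.2.1
    | some v => exact a.av ((h v rfl).of_av (mem_cmp.1 ht))
  have ex : ∀ y, ∃ t, y ∈ cmp X s x₀ →
      y ∈ fib X t ∧ t ∈ cmp X s x₀ ∧ ∀ t' ∈ cmp X s x₀, ¬ Bel X t t' := fun y => by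
    by_cases hy : y ∈ cmp X s x₀
    · obtain ⟨t, a, b⟩ := exists_max_image ((cmp X s x₀).filter fun t => y ∈ fib X t)
        (fun t => (fib X t).card) ⟨y, mem_filter.2 ⟨hy, mem_fib.2 (Or.inl rfl)⟩⟩
      rw [mem_filter] at a
      exact ⟨t, fun _ => ⟨a.2, a.1, fun t' c d =>
        (b t' (mem_filter.2 ⟨c, d.fib_sub a.2⟩)).not_gt d.fib_lt⟩⟩
    · exact ⟨y, fun a => (hy a).elim⟩
  choose top ht using ex
  have uq : ∀ y ∈ cmp X s x₀, ∀ t ∈ cmp X s x₀, y ∈ fib X t → (∀ t' ∈ cmp X s x₀, ¬ Bel X t t') →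
      top y = t := fun y hy t a b c => by
    rcases fib_nest (ht y hy).1 b with e | e | e
    · exact e
    · exact ((ht y hy).2.2 t a e).elim
    · exact (c _ (ht y hy).2.1 e).elim
  refine ⟨top, ⟨fun x a => (ht x a).1, fun x a y b => ?_, fun g hg x a b y c => ?_,
    fun g hg x a b => ?_⟩, fun y a y' b w c d => Av.walk ?_ c.symm⟩
  · have c := sub _ (ht x a).2.1 y b
    exact ⟨c, congrArg (fib X) (uq y c _ (ht x a).2.1 b (ht x a).2.2)⟩
  · have hs : s.map g = s := by
      cases s with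
      | none => rfl
      | some v =>
        exact congrArg some (fib_fix hΓ hg (mem_fib.2 (Or.inr ((h v rfl).of_av (mem_cmp.1 a))))
          (mem_fib.2 (Or.inr ((h v rfl).of_av (mem_cmp.1 b)))))
    have hU : ∀ z, z ∈ cmp X s x₀ ↔ g z ∈ cmp X s x₀ := fun z => by
      rw [← cmp_eq (mem_cmp.1 a), cmp_map hΓ hg, hs, cmp_eq (mem_cmp.1 b), cmp_eq (mem_cmp.1 a)]
    refine ⟨(hU y).1 c, (fib_map hΓ hg).2 (uq _ ((hU y).1 c) _ ((hU _).1 (ht y c).2.1)
      ((fib_map' hΓ hg).1 (ht y c).1) fun t' p q => ?_).symm⟩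
    obtain ⟨t', rfl⟩ := g.surjective t'
    exact (ht y c).2.2 t' ((hU _).2 p) ((bel_map hΓ hg).1 q)
  · have e := fib_fix hΓ hg (ht x a).1 b
    generalize top x = t at e
    have m : ∀ z, z ∈ (fib X t).erase t ↔ Bel X z t := fun z => by
      rw [mem_erase, mem_fib]
      exact ⟨fun p => p.2.resolve_left p.1, fun p => ⟨p.1, Or.inr p⟩⟩
    obtain ⟨f, hf, h1, h2⟩ := glue hΓ hg (A := (fib X t).erase t) (B := (fib X t).erase t)
      (s := some t) (by simpa using e) (fun z => by rw [m, m, ← bel_map hΓ hg, e]) (Or.inl rfl)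
      fun z p => ⟨by simpa using ((m z).1 p).1, fun y q r => (m y).2 (((m z).1 p).of_av
        (Av.step .refl q (by simpa using ((m z).1 p).1) r))⟩
    refine ⟨f, hf, fun z p => ?_, fun z p => h2 z (mt mem_of_mem_erase p) (mt mem_of_mem_erase p)⟩
    rcases eq_or_ne z t with rfl | q
    · rw [e, h2 z (notMem_erase _ _) (notMem_erase _ _)]
    · exact h1 z (mem_erase.2 ⟨q, p⟩)
  · have p := mem_cmp.1 (ht y a).2.1
    have q := mem_cmp.1 (ht y' b).2.1
    by_cases hw : Av X s x₀ w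
    · exact av_of_not_bel (Av.none (ReflTransGen.trans p.symm hw))
        (Av.none (ReflTransGen.trans q.symm hw)) c.symm d.symm
        ((ht y a).2.2 w (mem_cmp.2 hw)) ((ht y' b).2.2 w (mem_cmp.2 hw))
    · exact Av.avoid (ReflTransGen.trans p.symm q) fun r => hw (ReflTransGen.trans p r)

end Pool.Agent.Lib.MP_528c50_co.Cs
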