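import Pool.Agent.Lib.MP_528c50_co.Cs2.Orb
import Pool.Agent.Lib.MP_528c50_co.Cs.Ms
import Pool.Agent.Lib.MP_528c50_co.Cs.Trade
import Pool.Agent.Lib.MP_528c50_co.Cs.Trace

/-! One level of the recursion: the multiset of colours, exchanges, and short bases. -/

namespace Pool.Agent.Lib.MP_528c50_co.Cs

open Finset Function

variable {C K : Type} [Fintype K] [DecidableEq K] (F : Fo C) {Γ : Subgroup (Equiv.Perm K)}
  {c c' : K → C}

/-- The multiset of the nonempty colours. -/
noncomputable def Fo.mul (y : K → C) : Multiset C := ∑ x, F.nz (y x)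

theorem Fo.mem_nz {r t : C} : r ∈ F.nz t ↔ r ≠ F.o ∧ t = r := by
  unfold Fo.nz
  split_ifs with h
  · simp only [Multiset.notMem_zero, false_iff, not_and]
    exact fun h1 h2 => h1 (h2.symm.trans h)
  · rw [Multiset.mem_singleton]
    exact ⟨fun e => ⟨e ▸ h, e.symm⟩, fun e => e.2.symm⟩

omit [DecidableEq K] in
theorem Fo.mem_mul {r : C} : r ∈ F.mul c ↔ r ≠ F.o ∧ ∃ x, c x = r := by
  simp [Fo.mul, Multiset.mem_sum, F.mem_nz]

omit [DecidableEq K] in
theorem Fo.mul_comp (y : K → C) (g : Equiv.Perm K) : F.mul (y ∘ g) = F.mul y :=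
  Equiv.sum_comp g fun x => F.nz (y x)

theorem Fo.ne_o {t s : C} (hs : s ∈ F.del t) : t ≠ F.o := fun h => by
  rw [h, F.del_o] at hs
  simp at hs

theorem Fo.mul_update {x : K} {s : C} (hs : s ∈ F.del (c x)) :
    F.mul (update c x s) + {c x} = F.mul c + F.nz s := by
  have h : F.nz (c x) = {c x} := if_neg (F.ne_o hs)
  unfold Fo.mul
  rw [← add_sum_erase _ _ (mem_univ x), ← add_sum_erase _ (fun z => F.nz (c z)) (mem_univ x),
    update_self, sum_congr rfl fun z hz => by rw [update_of_ne (ne_of_mem_erase hz)], h]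
  abel

omit [DecidableEq K] in
theorem Fo.card_mul (y : K → C) : (F.mul y).card = (F.sup y).card := by
  classical
  rw [Fo.mul, Multiset.card_sum, Fo.sup, card_filter]
  refine sum_congr rfl fun x _ => ?_
  by_cases h : y x = F.o <;> simp [Fo.nz, h]

theorem Fo.leaves_le (y : K → C) : (F.cards Γ y).card ≤ ((F.mul y).map F.sz).sum := by
  have h := map_sum ((Multiset.sumAddMonoidHom (M := ℕ)).comp (Multiset.mapAddMonoidHom F.sz))
    (fun x => F.nz (y x)) univ
  simp only [AddMonoidHom.comp_apply, Multiset.coe_mapAddMonoidHom,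
    Multiset.coe_sumAddMonoidHom] at h
  rw [Fo.mul, h, F.card_cards]
  refine sum_le_sum fun x _ => (F.card_le _).trans ?_
  by_cases h : y x = F.o <;> simp [Fo.nz, h, F.sz_o]

theorem Fo.common (h : F.cards Γ c = F.cards Γ c') {x : K} {s : C} (hs : s ∈ F.del (c x)) :
    ∃ x', ∃ s' ∈ F.del (c' x'), ∃ g ∈ Γ, update c x s = update c' x' s' ∘ g ∧
      F.mul c + F.nz s + {c' x'} = F.mul c' + F.nz s' + {c x} := by
  obtain ⟨x', s', hs', e⟩ := (F.mem_cards Γ).1 (h ▸ (F.mem_cards Γ).2 ⟨x, s, hs, rfl⟩)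
  obtain ⟨g, hg, e⟩ := (cls_eq Γ).1 e.symm
  refine ⟨x', s', hs', g, hg, e, ?_⟩
  rw [← F.mul_update hs, ← F.mul_update hs', e, F.mul_comp]
  abel

omit [DecidableEq K] in
theorem Fo.single {A : C} (h : F.mul c = {A}) : ∃ x, c x ≠ F.o ∧ ∀ z, c z ≠ F.o → z = x := by
  obtain ⟨x, hx⟩ := card_eq_one.1 ((F.card_mul c).symm.trans (by rw [h]; rfl))
  exact ⟨x, F.mem_sup.1 (by simp [hx]), fun z hz => by simpa [hx] using F.mem_sup.2 hz⟩

/-- The multisets of colours agree, or both colourings have one coloured point. -/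
theorem Fo.mul_eq (h : F.cards Γ c = F.cards Γ c') (h3 : 3 ≤ (F.cards Γ c).card) :
    F.mul c = F.mul c' ∨ (∃ x, c x ≠ F.o ∧ ∀ z, c z ≠ F.o → z = x) ∧
      ∃ x, c' x ≠ F.o ∧ ∀ z, c' z ≠ F.o → z = x := by
  have h1 := F.leaves_le (Γ := Γ) c
  have h2 := F.leaves_le (Γ := Γ) c'
  rcases F.ms (M := F.mul c) (M' := F.mul c') (by simp [F.mem_mul]) (by simp [F.mem_mul])
    (fun R hR D hD => by
      obtain ⟨-, x, rfl⟩ := F.mem_mul.1 hR
      obtain ⟨x', s', hs', -, -, -, e⟩ := F.common h hD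
      exact ⟨_, _, hR, hD, F.mem_mul.2 ⟨F.ne_o hs', x', rfl⟩, hs', e⟩)
    (fun R hR D hD => by
      obtain ⟨-, x, rfl⟩ := F.mem_mul.1 hR
      obtain ⟨x', s', hs', -, -, -, e⟩ := F.common h.symm hD
      exact ⟨_, _, F.mem_mul.2 ⟨F.ne_o hs', x', rfl⟩, hs', hR, hD, e.symm⟩) with
    e | ⟨A, A', e, e', -⟩ | ⟨A, B, B', e, -, s, -⟩ | ⟨A, B, B', e, -, s, -⟩
  · exact Or.inl e
  · exact Or.inr ⟨F.single e, F.single e'⟩
  · rw [e, Multiset.map_singleton, Multiset.sum_singleton] at h1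
    omega
  · rw [e, Multiset.map_singleton, Multiset.sum_singleton, ← h] at h2
    omega

/-- Equal multisets of colours give equivalent colourings if points of the same colour can be
exchanged. -/
theorem Fo.of_swaps (n : ℕ) : ∀ c' : K → C, F.mul c = F.mul c' →
    (∀ x x', c x = c' x' → c x ≠ F.o → Equiv.swap x x' ∈ Γ) →
    ∀ S : Finset K, S.card ≤ n → (∀ x, x ∉ S → c x = c' x) → ∃ g ∈ Γ, c = c' ∘ g := by
  classical
  induction n with
  | zero =>
    intro c' _ _ S hS h
    exact ⟨1, Γ.one_mem, funext fun x => h x (by simp [card_eq_zero.1 (Nat.le_zero.1 hS)])⟩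
  | succ n ih =>
    intro c' hm hs S hS h
    by_cases e : c = c'
    · exact ⟨1, Γ.one_mem, e⟩
    obtain ⟨x, h1, h2⟩ : ∃ x, c x ≠ c' x ∧ c x ≠ F.o := by
      by_contra h0
      simp only [not_exists, not_and, not_not] at h0
      obtain ⟨z, hz⟩ := ne_iff.1 e
      refine (sum_lt_sum (fun w _ => ?_) ⟨z, mem_univ z, ?_⟩ : F.mul c < F.mul c').ne hm
      · by_cases hw : c w = c' w
        · rw [hw]
        · simp [Fo.nz, h0 w hw]
      · have h3 := h0 z hz
        have h4 : c' z ≠ F.o := fun h5 => hz (h3.trans h5.symm)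
        simp [Fo.nz, h3, h4, pos_iff_ne_zero]
    obtain ⟨x', h3, h4⟩ : ∃ x', c' x' = c x ∧ c x' ≠ c x := by
      by_contra h0
      simp only [not_exists, not_and, not_not] at h0
      have h5 := congrArg (Multiset.count (c x)) hm
      simp only [Fo.mul, Multiset.count_sum'] at h5
      refine (sum_lt_sum (fun w _ => ?_) ⟨x, mem_univ x, ?_⟩).ne h5.symm
      · by_cases hw : c' w = c x
        · rw [hw, h0 w hw]
        · rw [Multiset.count_eq_zero.2 fun h6 => hw (F.mem_nz.1 h6).2]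
          exact Nat.zero_le _
      · rw [Multiset.count_eq_zero.2 fun h6 => h1 (F.mem_nz.1 h6).2.symm]
        exact Multiset.count_pos.2 (F.mem_nz.2 ⟨h2, rfl⟩)
    have s1 := hs x x' h3.symm h2
    have xS : x ∈ S := not_not.1 fun h0 => h1 (h x h0)
    have xS' : x' ∈ S := not_not.1 fun h0 => h4 ((h x' h0).trans h3)
    obtain ⟨g, hg, e⟩ := ih (c' ∘ Equiv.swap x x') (by rw [F.mul_comp, hm]) (fun z z' h5 h6 => by
      refine SubmonoidClass.swap_mem_trans Γ (hs z _ h5 h6) ?_
      rcases eq_or_ne z' x with rfl | h7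
      · rwa [Equiv.swap_apply_left, Equiv.swap_comm]
      rcases eq_or_ne z' x' with rfl | h8
      · rwa [Equiv.swap_apply_right]
      · rw [Equiv.swap_apply_of_ne_of_ne h7 h8, Equiv.swap_self]
        exact Γ.one_mem) (S.erase x) (by rw [card_erase_of_mem xS]; omega) (fun z hz => by
      rcases eq_or_ne z x with rfl | h7
      · rw [comp_apply, Equiv.swap_apply_left, h3]
      · have h8 : z ∉ S := fun h0 => hz (mem_erase.2 ⟨h7, h0⟩)
        rw [comp_apply, Equiv.swap_apply_of_ne_of_ne h7 fun h0 => h8 (h0 ▸ xS'), h z h8])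
    exact ⟨Equiv.swap x x' * g, Γ.mul_mem s1 hg, e⟩

/-- Equal multisets of colours give equivalent colourings if irredundant bases are short. -/
theorem Fo.of_irr {l : ℕ} (hl : Irr Γ l) (h : F.Hyp Γ c c') (hm : F.mul c = F.mul c')
    (hk : (4 * l * (Nat.log 2 l + 4) + 2) ^ 2 ≤ (F.cards Γ c).card) : ∃ g ∈ Γ, c = c' ∘ g := by
  classical
  by_contra hne
  have hN : (F.sup c').card = (F.sup c).card := by rw [← F.card_mul, ← F.card_mul, hm]
  have h1 : cnt Γ c (F.sup c) c ≠ cnt Γ c' (F.sup c) c := by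
    have e1 : cnt Γ c' (F.sup c) c = 0 := by
      refine card_eq_zero.2 (filter_eq_empty_iff.2 fun g _ ⟨hg, e⟩ => hne ⟨g, hg, ?_⟩)
      have e2 : F.sup c = F.sup (c' ∘ g) := eq_of_subset_of_card_le
        (fun x hx => F.mem_sup.2 (by rw [comp_apply, e x hx]; exact F.mem_sup.1 hx))
        (by rw [← F.card_mul, F.mul_comp, F.card_mul, hN])
      funext x
      by_cases hx : x ∈ F.sup c
      · exact (e x hx).symm
      · exact (not_not.1 (mt F.mem_sup.2 hx)).trans
          (not_not.1 (mt (F.mem_sup (c := c' ∘ g)).2 (e2 ▸ hx))).symm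
    rw [e1]
    exact (card_pos.2 ⟨1, mem_filter.2 ⟨mem_univ _, Γ.one_mem, fun _ _ => rfl⟩⟩).ne'
  have h2 := all_traces (F.sup c) c c' (fun T hT => F.cnt_eq h (card_lt_card hT)
    (hN ▸ card_lt_card hT) c) h1
  have h3 := trace_card hl (F.sup c) (F.sup c) c c
    (fun x hx y e => F.mem_sup.2 (e ▸ F.mem_sup.1 hx))
    ((F.sup c).powerset.filter (IsTr Γ (F.sup c) c c)) fun X hX => (mem_filter.1 hX).2
  have h4 := trace_card hl (F.sup c) (F.sup c') c c'
    (fun x hx y e => F.mem_sup.2 (e ▸ F.mem_sup.1 hx))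
    ((F.sup c).powerset.filter (IsTr Γ (F.sup c) c c')) fun X hX => (mem_filter.1 hX).2
  have h5 : (F.sup c).card < 4 * l * (Nat.log 2 l + 4) + 2 := by
    refine num_bound ?_
    have h6 : (F.sup c).powerset ⊆ (F.sup c).powerset.filter (IsTr Γ (F.sup c) c c) ∪
        (F.sup c).powerset.filter (IsTr Γ (F.sup c) c c') := fun X hX => by
      simpa [hX, ← and_or_left] using h2 X (mem_powerset.1 hX)
    have h7 := (card_le_card h6).trans (card_union_le _ _)
    rw [hN] at h4
    rw [card_powerset] at h7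
    omega
  have h6 : ∀ x, ∀ s ∈ F.del (c x), s ≠ F.o → ∃ z, c z = s := by
    intro x s hs h0
    by_contra h7
    obtain ⟨x', s', hs', g, hg, e, e'⟩ := F.common (F.cards_of_hyp Γ h) hs
    have h8 : c' x' ≠ s := fun h9 => h7 (F.mem_mul.1 (hm ▸ F.mem_mul.2 ⟨h0, x', h9⟩)).2
    have h9 : g x = x' := by
      by_contra h10
      have h11 := congrFun e x
      rw [update_self, comp_apply, update_of_ne h10] at h11
      exact h7 (F.mem_mul.1 (hm ▸ F.mem_mul.2 ⟨h0, g x, h11.symm⟩)).2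
    have h10 := congrFun e x
    rw [update_self, comp_apply, h9, update_self] at h10
    rw [hm, ← h10, add_right_inj, Multiset.singleton_inj] at e'
    refine hne ⟨g, hg, funext fun z => ?_⟩
    rcases eq_or_ne z x with rfl | h11
    · rw [comp_apply, h9, e']
    · have h12 := congrFun e z
      rwa [update_of_ne h11, comp_apply, update_of_ne fun h13 => h11
        (g.injective (h13.trans h9.symm))] at h12
  have h7 : ∀ m x, F.sz (c x) = m → Icc 1 m ⊆ (F.sup c).image fun z => F.sz (c z) := by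
    intro m
    induction m with
    | zero => simp
    | succ m ih =>
      intro x hx j hj
      have h8 : c x ≠ F.o := fun h0 => by
        rw [h0, F.sz_o] at hx
        omega
      rw [mem_Icc] at hj
      rcases eq_or_ne j (m + 1) with rfl | h9
      · exact mem_image.2 ⟨x, F.mem_sup.2 h8, hx⟩
      obtain ⟨s, hs⟩ := F.exists_del h8
      have h10 := F.sz_del _ s hs
      obtain ⟨z, hz⟩ := h6 x s hs fun h0 => by
        rw [h0, F.sz_o] at h10
        omega
      exact ih z (by rw [hz]; omega) (mem_Icc.2 (by omega))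
  have h8 : ∀ r ∈ (F.mul c).map F.sz, r ≤ (F.sup c).card := fun r hr => by
    obtain ⟨t, ht, rfl⟩ := Multiset.mem_map.1 hr
    obtain ⟨-, x, rfl⟩ := F.mem_mul.1 ht
    simpa using (card_le_card (h7 _ x rfl)).trans card_image_le
  have h9 := (F.leaves_le (Γ := Γ) c).trans (Multiset.sum_le_card_nsmul _ _ h8)
  rw [Multiset.card_map, F.card_mul, smul_eq_mul] at h9
  nlinarith

end Pool.Agent.Lib.MP_528c50_co.Cs
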