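import Pool.Agent.Lib.MP_528c50_co.Cs.Defs

/-! Orbits of colourings as colours. -/

namespace Pool.Agent.Lib.MP_528c50_co.Cs

open Finset Function

variable {C K : Type}

/-- Colourings in the same orbit. -/
def orbS (C : Type) (Γ : Subgroup (Equiv.Perm K)) : Setoid (K → C) where
  r y y' := ∃ g ∈ Γ, y = y' ∘ g
  iseqv := ⟨fun _ => ⟨1, Γ.one_mem, rfl⟩,
    fun ⟨g, hg, e⟩ => ⟨g⁻¹, Γ.inv_mem hg, by rw [e]; ext; simp⟩,
    fun ⟨g, hg, e⟩ ⟨h, hh, e'⟩ => ⟨h * g, Γ.mul_mem hh hg, by rw [e, e']; rfl⟩⟩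

/-- The orbits of colourings. -/
def Orb (C : Type) (Γ : Subgroup (Equiv.Perm K)) : Type := Quotient (orbS C Γ)

variable (F : Fo C) (Γ : Subgroup (Equiv.Perm K))

/-- The orbit of a colouring. -/
def cls (y : K → C) : Orb C Γ := Quotient.mk _ y

theorem cls_eq {y y' : K → C} : cls Γ y = cls Γ y' ↔ ∃ g ∈ Γ, y = y' ∘ g := Quotient.eq

theorem cls_comp (y : K → C) {g : Equiv.Perm K} (hg : g ∈ Γ) : cls Γ (y ∘ g) = cls Γ y :=
  (cls_eq Γ).2 ⟨g, hg, rfl⟩

variable [Fintype K] [DecidableEq K]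

/-- The deck of a colouring. -/
def Fo.cards (y : K → C) : Multiset (Orb C Γ) :=
  ∑ x, (F.del (y x)).map fun s => cls Γ (update y x s)

theorem Fo.cards_comp (y : K → C) {g : Equiv.Perm K} (hg : g ∈ Γ) :
    F.cards Γ (y ∘ g) = F.cards Γ y := by
  unfold Fo.cards
  rw [← Equiv.sum_comp g fun x => (F.del (y x)).map fun s => cls Γ (update y x s)]
  refine sum_congr rfl fun x _ => Multiset.map_congr rfl fun s _ => ?_
  rw [← cls_comp Γ (update y (g x) s) hg, update_comp_eq_of_injective y g.injective]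

theorem Fo.mem_cards {y : K → C} {a : Orb C Γ} :
    a ∈ F.cards Γ y ↔ ∃ x, ∃ s ∈ F.del (y x), cls Γ (update y x s) = a := by
  simp [Fo.cards, Multiset.mem_sum]

theorem Fo.card_cards (y : K → C) : (F.cards Γ y).card = ∑ x, (F.del (y x)).card := by
  simp [Fo.cards, Multiset.card_sum]

theorem Fo.sum_update {y : K → C} {x : K} {s : C} (hs : s ∈ F.del (y x)) :
    ∑ z, F.sz (update y x s z) + 1 = ∑ z, F.sz (y z) := by
  have h := F.sz_del _ s hs
  rw [← add_sum_erase _ _ (mem_univ x), ← add_sum_erase _ (fun z => F.sz (y z)) (mem_univ x),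
    update_self, sum_congr rfl fun z hz => by rw [update_of_ne (ne_of_mem_erase hz)]]
  omega

/-- Orbits of colourings are colours. -/
def Fo.orb : Fo (Orb C Γ) where
  sz := Quotient.lift (fun y => ∑ x, F.sz (y x)) fun _ y' ⟨g, _, e⟩ => by
    rw [e]
    exact Equiv.sum_comp g fun x => F.sz (y' x)
  del := Quotient.lift (F.cards Γ) fun _ y' ⟨g, hg, e⟩ => by rw [e, F.cards_comp Γ y' hg]
  o := cls Γ fun _ => F.o
  sz_del t := Quotient.inductionOn t fun y s hs => by
    obtain ⟨x, s, h, rfl⟩ := (F.mem_cards Γ).1 hs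
    exact F.sum_update h
  eq_o t := Quotient.inductionOn t fun y h => congrArg (cls Γ) (funext fun x => F.eq_o _
    (Multiset.eq_zero_of_forall_notMem fun s hs => by
      have h1 := (F.mem_cards Γ).2 ⟨x, s, hs, rfl⟩
      have h2 : F.cards Γ y = 0 := h
      simp [h2] at h1))
  sz_o := sum_eq_zero fun _ _ => F.sz_o
  card_le t := Quotient.inductionOn t fun y =>
    (F.card_cards Γ y).trans_le (sum_le_sum fun x _ => F.card_le (y x))

theorem Fo.orb_del (y : K → C) : (F.orb Γ).del (cls Γ y) = F.cards Γ y := rfl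

theorem Fo.orb_sz (y : K → C) : (F.orb Γ).sz (cls Γ y) = ∑ x, F.sz (y x) := rfl

theorem Fo.cls_eq_o {y : K → C} : cls Γ y = (F.orb Γ).o ↔ ∀ x, y x = F.o :=
  ⟨fun h x => by
    obtain ⟨g, -, e⟩ := (cls_eq Γ).1 h
    rw [e]
    rfl, fun h => congrArg (cls Γ) (funext h)⟩

theorem Fo.dsum_cls (y : K → C) (ψ : Orb C Γ → ℕ) :
    F.dsum y (fun z => ψ (cls Γ z)) = ((F.cards Γ y).map ψ).sum := by
  have h := map_sum ((Multiset.sumAddMonoidHom (M := ℕ)).comp (Multiset.mapAddMonoidHom ψ))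
    (fun x => (F.del (y x)).map fun s => cls Γ (update y x s)) univ
  simp only [AddMonoidHom.comp_apply, Multiset.coe_mapAddMonoidHom, Multiset.coe_sumAddMonoidHom,
    Multiset.map_map, comp_def] at h
  exact h.symm

theorem Fo.cards_of_hyp {c c' : K → C} (h : F.Hyp Γ c c') : F.cards Γ c = F.cards Γ c' := by
  classical
  ext a
  have h1 := h (fun z => if cls Γ z = a then 1 else 0) fun g hg y => by rw [cls_comp Γ y hg]
  rw [F.dsum_cls Γ c fun b => if b = a then 1 else 0,
    F.dsum_cls Γ c' fun b => if b = a then 1 else 0] at h1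
  have h2 : ∀ M : Multiset (Orb C Γ), (M.map fun b => if b = a then 1 else 0).sum = M.count a := by
    intro M
    induction M using Multiset.induction_on with
    | empty => simp
    | cons b M ih =>
      rw [Multiset.map_cons, Multiset.sum_cons, ih, Multiset.count_cons, add_comm]
      simp only [eq_comm]
  rwa [h2, h2] at h1

end Pool.Agent.Lib.MP_528c50_co.Cs
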