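import Pool.Agent.Lib.MP_528c50_co.Cs2.Eng
import Pool.Agent.Lib.MP_528c50_co.Cs2.Bel
import Pool.Agent.Lib.MP_528c50_co.Cs.Core

/-! The recursion along the tree of blocks. -/

namespace Pool.Agent.Lib.MP_528c50_co.Cs

open Finset Function

variable {C K : Type} [Fintype K] [DecidableEq K] (F : Fo C) {Γ : Subgroup (Equiv.Perm K)}
  {U : Finset K} {ch : K → Finset K} {k : ℕ}

variable (Γ) in
/-- Colourings supported in `U` with at least `k` cards are determined by their decks. -/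
def Fo.Rec (k : ℕ) (U : Finset K) : Prop :=
  ∀ c c' : K → C, F.Sup U c → F.Sup U c' → F.cards Γ c = F.cards Γ c' →
    k ≤ (F.cards Γ c).card → cls Γ c = cls Γ c'

theorem Node.sup_single (N : Node Γ U ch) {c : K → C} (hc : F.Sup U c) {D : Ch U ch}
    (h : ∀ E, F.bar Γ U ch c E ≠ (F.orb Γ).o → E = D) : F.Sup D.1 c := fun z hz => by
  have h1 := hc z hz
  have h2 : z ∈ (part ch h1).1 := N.self z h1
  rw [← h (part ch h1) fun e => hz (by simpa only [Fo.res, if_pos h2] using (F.cls_eq_o Γ).1 e z)]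
  exact h2

theorem Node.step (N : Node Γ U ch) (hk : 3 ≤ k)
    (key : ∀ c c' : K → C, (F.orb Γ).Hyp (grp Γ U ch) (F.bar Γ U ch c) (F.bar Γ U ch c') →
      k ≤ ((F.orb Γ).cards (grp Γ U ch) (F.bar Γ U ch c)).card →
      (F.orb Γ).mul (F.bar Γ U ch c) = (F.orb Γ).mul (F.bar Γ U ch c') →
      ∃ σ ∈ grp Γ U ch, F.bar Γ U ch c = F.bar Γ U ch c' ∘ σ)
    (ih : ∀ x ∈ U, F.Rec Γ k (ch x)) : F.Rec Γ k U := by
  intro c c' hc hc' h h1
  have h2 := N.hyp_bar F hc hc' (by omega) h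
  have h3 : k ≤ ((F.orb Γ).cards (grp Γ U ch) (F.bar Γ U ch c)).card := by
    rwa [Fo.card_cards, N.leaves_bar F hc]
  rcases (F.orb Γ).mul_eq ((F.orb Γ).cards_of_hyp _ h2) (hk.trans h3) with
    e | ⟨⟨D, -, hD⟩, D', -, hD'⟩
  · obtain ⟨σ, hσ, e⟩ := key c c' h2 h3 e
    exact N.glue F hc hc' hσ e
  have s1 := N.sup_single F hc hD
  have s2 := N.sup_single F hc' hD'
  obtain ⟨a, ha⟩ := Multiset.card_pos_iff_exists_mem.1 (show 0 < (F.cards Γ c).card by omega)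
  obtain ⟨x, s, hs, -⟩ := (F.mem_cards Γ).1 ha
  obtain ⟨x', s', hs', g, hg, e, -⟩ := F.common h hs
  obtain ⟨h4, z, hz⟩ := s1.card (Γ := Γ) (by omega) hs
  have z1 := h4 z hz
  have z2 : g z ∈ D'.1 := (s2.card (Γ := Γ) (by rw [← h]; omega) hs').1 _ (by rwa [e] at hz)
  obtain ⟨σ, hσ⟩ := N.exists_ind hg (N.of_mem z1).1 (N.of_mem z2).1
  have h5 : σ D = D' := N.uniq ((hσ D z).1 z1) z2
  rw [← cls_comp Γ c' hg]
  have h6 := ih z (N.of_mem z1).1
  rw [(N.of_mem z1).2] at h6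
  exact h6 c _ s1 (fun w hw => (hσ D w).2 (h5 ▸ s2 _ hw)) (by rw [F.cards_comp Γ c' hg, h]) h1

omit [Fintype K] in
theorem Node.swap_mem (N : Node Γ U ch) (S : Sw Γ U ch) {g : Equiv.Perm K} (hg : g ∈ Γ)
    {D D' : Ch U ch} {z : K} (z1 : z ∈ D.1) (z2 : g z ∈ D'.1) :
    Equiv.swap D D' ∈ grp Γ U ch := by
  rcases eq_or_ne D D' with rfl | hne
  · rw [Equiv.swap_self]
    exact (grp Γ U ch).one_mem
  obtain ⟨z3, z4⟩ := N.of_mem z1
  obtain ⟨z5, z6⟩ := N.of_mem z2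
  obtain ⟨h, hh, h1, h2⟩ := S g hg z z3 z5 fun e => hne (N.uniq (z4 ▸ e) z2)
  rw [z4] at h1
  rw [z4, z6] at h2
  obtain ⟨σ, hσ⟩ := N.exists_ind hh z3 (by rwa [h1 z z1])
  have e1 : σ D = D' := N.uniq ((hσ D z).1 z1) (by rwa [h1 z z1])
  have e2 : ∀ E, E ≠ D → E ≠ D' → σ E = E := fun E a b => by
    obtain ⟨y, hy, e⟩ := mem_image.1 E.2
    have y1 : y ∈ E.1 := e ▸ N.self y hy
    have y2 := (hσ E y).1 y1
    rw [h2 y (fun e => a (N.uniq y1 e)) fun e => b (N.uniq y1 e)] at y2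
    exact N.uniq y2 y1
  have e3 : σ D' = D := by
    by_contra a
    have b : σ D' ≠ D' := fun b => hne (σ.injective (e1.trans b.symm))
    exact b (σ.injective (e2 _ a b))
  have e4 : Equiv.swap D D' = σ := Equiv.ext fun E => by
    rcases eq_or_ne E D with rfl | a
    · rw [Equiv.swap_apply_left, e1]
    rcases eq_or_ne E D' with rfl | b
    · rw [Equiv.swap_apply_right, e3]
    · rw [Equiv.swap_apply_of_ne_of_ne a b, e2 E a b]
  exact ⟨h, hh, e4 ▸ hσ⟩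

theorem Node.stepV (N : Node Γ U ch) (S : Sw Γ U ch) (hk : 3 ≤ k)
    (ih : ∀ x ∈ U, F.Rec Γ k (ch x)) : F.Rec Γ k U := by
  refine N.step F hk (fun c c' _ _ e => (F.orb Γ).of_swaps _ _ e (fun D D' h h0 => ?_) univ le_rfl
    (by simp)) ih
  obtain ⟨g, hg, h⟩ := (cls_eq Γ).1 h
  obtain ⟨z, hz⟩ := not_forall.1 (mt (F.cls_eq_o Γ).2 h0)
  refine N.swap_mem S hg (z := z) (not_not.1 fun a => hz (if_neg a)) (not_not.1 fun a => hz ?_)
  rw [h]
  exact if_neg a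

theorem Fo.rec_single (hi : Injective F.del) (v : K) : F.Rec Γ k {v} := by
  obtain ⟨ω, hω⟩ : ∃ ω : Orb C Γ → Multiset C, ∀ y, ω (cls Γ y) = F.mul y :=
    ⟨Quotient.lift (s := orbS C Γ) F.mul fun _ y' ⟨g, _, e⟩ => by rw [e, F.mul_comp],
      fun _ => rfl⟩
  have key : ∀ c : K → C, F.Sup {v} c → (F.cards Γ c).map ω = (F.del (c v)).map F.nz := by
    intro c hc
    have h0 : ∀ x, x ≠ v → c x = F.o := fun x hx => not_not.1 fun a => hx (mem_singleton.1 (hc x a))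
    rw [Fo.cards, sum_eq_single v (fun x _ hx => by rw [h0 x hx, F.del_o, Multiset.map_zero])
      (by simp), Multiset.map_map]
    refine Multiset.map_congr rfl fun s _ => ?_
    rw [comp_apply, hω, Fo.mul, sum_eq_single v (fun x _ hx => by rw [update_of_ne hx, h0 x hx, F.core_nz_o])
      (by simp), update_self]
  intro c c' hc hc' h _
  have h1 := key c hc
  rw [h, key c' hc'] at h1
  have h2 := hi (Multiset.map_injective (fun _ _ => F.core_nz_inj) h1)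
  refine congrArg (cls Γ) (funext fun x => ?_)
  rcases eq_or_ne x v with rfl | hx
  · exact h2.symm
  · rw [not_not.1 fun a => hx (mem_singleton.1 (hc x a)),
      not_not.1 fun a => hx (mem_singleton.1 (hc' x a))]

variable {X : SimpleGraph K} {l : ℕ}
  (hΓ : ∀ g : Equiv.Perm K, g ∈ Γ ↔ ∀ a b, X.Adj (g a) (g b) ↔ X.Adj a b)
  (hl : ∀ (r : ℕ) (x : Fin r → K), (∀ i j, Insep X (x i) (x j)) →
    (∀ i, ∃ g ∈ Γ, (∀ j < i, g (x j) = x j) ∧ g (x i) ≠ x i) → r ≤ l)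

include hΓ hl

theorem Fo.stepB {s : Option K} {x₀ : K} (h : ∀ v, s = some v → Bel X x₀ v)
    (ih : ∀ v, (fib X v).card ≤ (cmp X s x₀).card →
      F.Rec Γ ((4 * l * (Nat.log 2 l + 4) + 2) ^ 2) (fib X v)) :
    F.Rec Γ ((4 * l * (Nat.log 2 l + 4) + 2) ^ 2) (cmp X s x₀) := by
  obtain ⟨top, N, ht⟩ := nodeB hΓ h
  refine N.step F (by nlinarith [Nat.zero_le (4 * l * (Nat.log 2 l + 4))])
    (fun c c' h1 h2 e => (F.orb Γ).of_irr (fun r D hD => ?_) h1 e h2)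
    fun x hx => ih _ (card_le_card fun y hy => (N.eq x hx y hy).1)
  choose y hy e using fun i => mem_image.1 (D i).2
  refine hl r (fun i => top (y i)) (fun i j => ht _ (hy i) _ (hy j)) fun i => ?_
  obtain ⟨σ, ⟨g, hg, hσ⟩, h3, h4⟩ := hD i
  refine ⟨g, hg, fun j hj => (fib_map hΓ hg).1 fun z => ?_, fun a => h4 (Subtype.ext ?_)⟩
  · have := hσ (D j) z
    rwa [h3 j hj, ← e j] at this
  · ext z
    rw [← g.apply_symm_apply z, ← hσ, ← e i]
    exact (fib_map hΓ hg).2 a _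

theorem Fo.rec_fib (hi : Injective F.del) (n : ℕ) : ∀ v, (fib X v).card ≤ n →
    F.Rec Γ ((4 * l * (Nat.log 2 l + 4) + 2) ^ 2) (fib X v) := by
  induction n with
  | zero =>
    intro v hv
    have := card_pos.2 ⟨v, (mem_fib (X := X)).2 (Or.inl rfl)⟩
    omega
  | succ n ih =>
    intro v hv
    refine (nodeV hΓ v).1.stepV F (nodeV hΓ v).2
      (by nlinarith [Nat.zero_le (4 * l * (Nat.log 2 l + 4))]) fun x hx => ?_
    unfold chV
    split_ifs with e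
    · exact F.rec_single hi v
    · have h1 := (mem_fib.1 hx).resolve_left e
      have h2 := cmp_lt h1
      exact F.stepB hΓ hl (fun w a => Option.some_injective _ a ▸ h1) fun w hw => ih w (by omega)

theorem Fo.blk_main (hi : Injective F.del) {c c' : K → C} (h : F.Hyp Γ c c')
    (hk : (4 * l * (Nat.log 2 l + 4) + 2) ^ 2 ≤ ∑ x, (F.del (c x)).card) :
    ∃ g ∈ Γ, c = c' ∘ g :=
  (cls_eq Γ).1 ((nodeT hΓ).1.stepV F (nodeT hΓ).2
    (by nlinarith [Nat.zero_le (4 * l * (Nat.log 2 l + 4))])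
    (fun _ _ => F.stepB hΓ hl (by simp) fun v _ => F.rec_fib hΓ hl hi _ v le_rfl) c c'
    (fun _ _ => mem_univ _) (fun _ _ => mem_univ _) (F.cards_of_hyp Γ h)
    (by rwa [F.card_cards]))

end Pool.Agent.Lib.MP_528c50_co.Cs
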