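import Pool.Agent.Lib.MP_528c50_co.Cs2.Orb

/-! A set of points that is partitioned into parts on which the group acts independently. -/

namespace Pool.Agent.Lib.MP_528c50_co.Cs

open Finset Function

variable {C K : Type} [DecidableEq K] (F : Fo C)

/-- The restriction of a colouring. -/
def Fo.res (D : Finset K) (y : K → C) : K → C := fun x => if x ∈ D then y x else F.o

/-- The colouring is supported in `U`. -/
def Fo.Sup (U : Finset K) (y : K → C) : Prop := ∀ x, y x ≠ F.o → x ∈ U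

/-- `ch x` is the part of `U` that contains `x`. -/
structure Node (Γ : Subgroup (Equiv.Perm K)) (U : Finset K) (ch : K → Finset K) : Prop where
  self : ∀ x ∈ U, x ∈ ch x
  eq : ∀ x ∈ U, ∀ y ∈ ch x, y ∈ U ∧ ch y = ch x
  inv : ∀ g ∈ Γ, ∀ x ∈ U, g x ∈ U → ∀ y ∈ U, g y ∈ U ∧ ∀ z, z ∈ ch y ↔ g z ∈ ch (g y)
  loc : ∀ g ∈ Γ, ∀ x ∈ U, g x ∈ ch x →
    ∃ h ∈ Γ, (∀ z ∈ ch x, h z = g z) ∧ ∀ z, z ∉ ch x → h z = z

/-- Two parts in the same orbit can be exchanged. -/
def Sw (Γ : Subgroup (Equiv.Perm K)) (U : Finset K) (ch : K → Finset K) : Prop :=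
  ∀ g ∈ Γ, ∀ x ∈ U, g x ∈ U → g x ∉ ch x →
    ∃ h ∈ Γ, (∀ z ∈ ch x, h z = g z) ∧ ∀ z, z ∉ ch x → z ∉ ch (g x) → h z = z

/-- The parts. -/
abbrev Ch (U : Finset K) (ch : K → Finset K) : Type := {D // D ∈ U.image ch}

/-- `g` induces `σ` on the parts. -/
def Ind {U : Finset K} {ch : K → Finset K} (g : Equiv.Perm K) (σ : Equiv.Perm (Ch U ch)) : Prop :=
  ∀ D z, z ∈ D.1 ↔ g z ∈ (σ D).1

/-- The group induced on the parts. -/
def grp (Γ : Subgroup (Equiv.Perm K)) (U : Finset K) (ch : K → Finset K) :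
    Subgroup (Equiv.Perm (Ch U ch)) where
  carrier := {σ | ∃ g ∈ Γ, Ind g σ}
  one_mem' := ⟨1, Γ.one_mem, fun _ _ => Iff.rfl⟩
  mul_mem' := fun ⟨g, hg, e⟩ ⟨h, hh, e'⟩ =>
    ⟨g * h, Γ.mul_mem hg hh, fun D z => (e' D z).trans (e _ _)⟩
  inv_mem' := fun {σ} ⟨g, hg, e⟩ => ⟨g⁻¹, Γ.inv_mem hg, fun D z => by
    simpa using (e (σ⁻¹ D) (g⁻¹ z)).symm⟩

variable {Γ : Subgroup (Equiv.Perm K)} {U : Finset K} {ch : K → Finset K}

/-- The part of a point. -/
def part (ch : K → Finset K) {x : K} (hx : x ∈ U) : Ch U ch := ⟨ch x, mem_image_of_mem ch hx⟩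

theorem Node.of_mem (N : Node Γ U ch) {D : Ch U ch} {x : K} (hx : x ∈ D.1) :
    x ∈ U ∧ ch x = D.1 := by
  obtain ⟨y, hy, e⟩ := mem_image.1 D.2
  rw [← e] at hx ⊢
  exact N.eq y hy x hx

theorem Node.uniq (N : Node Γ U ch) {D D' : Ch U ch} {x : K} (hx : x ∈ D.1) (hx' : x ∈ D'.1) :
    D = D' := Subtype.ext ((N.of_mem hx).2.symm.trans (N.of_mem hx').2)

theorem Node.exists_ind (N : Node Γ U ch) {g : Equiv.Perm K} (hg : g ∈ Γ) {x : K} (hx : x ∈ U)
    (hx' : g x ∈ U) : ∃ σ : Equiv.Perm (Ch U ch), Ind g σ := by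
  have h : ∀ D : Ch U ch, ∃ D' : Ch U ch, ∀ z, z ∈ D.1 ↔ g z ∈ D'.1 := fun D => by
    obtain ⟨y, hy, e⟩ := mem_image.1 D.2
    exact ⟨part ch (N.inv g hg x hx hx' y hy).1, fun z => e ▸ (N.inv g hg x hx hx' y hy).2 z⟩
  choose f hf using h
  have hi : Injective f := fun D D' e => Subtype.ext (Finset.ext fun z => by rw [hf D, hf D', e])
  exact ⟨Equiv.ofBijective f (Finite.injective_iff_bijective.1 hi), hf⟩

variable (Γ U ch) in
/-- The colouring of the parts. -/
def Fo.bar (y : K → C) : Ch U ch → Orb C Γ := fun D => cls Γ (F.res D.1 y)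

theorem Fo.bar_comp {g : Equiv.Perm K} (hg : g ∈ Γ) {σ : Equiv.Perm (Ch U ch)} (h : Ind g σ)
    (y : K → C) : F.bar Γ U ch (y ∘ g) = F.bar Γ U ch y ∘ σ := by
  funext D
  refine (cls_eq Γ).2 ⟨g, hg, funext fun z => ?_⟩
  simp only [Fo.res, comp_apply, h D z]

theorem Node.sup_comp (N : Node Γ U ch) {g : Equiv.Perm K} {σ : Equiv.Perm (Ch U ch)}
    (h : Ind g σ) {y : K → C} (hy : F.Sup U y) : F.Sup U (y ∘ g) := fun z hz => by
  have h1 := hy _ hz
  refine (N.of_mem (D := σ.symm (part ch h1)) ((h _ z).2 ?_)).1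
  rw [Equiv.apply_symm_apply]
  exact N.self _ h1

theorem Node.bar_update (N : Node Γ U ch) {D : Ch U ch} {x : K} (hx : x ∈ D.1) (y : K → C)
    (s : C) : F.bar Γ U ch (update y x s) =
      update (F.bar Γ U ch y) D (cls Γ (update (F.res D.1 y) x s)) := by
  funext D'
  by_cases h : D' = D
  · rw [h, update_self]
    refine congrArg (cls Γ) (funext fun z => ?_)
    by_cases hz : z = x
    · simp [Fo.res, hz, hx]
    · simp [Fo.res, hz]
  · rw [update_of_ne h]
    refine congrArg (cls Γ) (funext fun z => ?_)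
    by_cases hz : z = x
    · have : x ∉ D'.1 := fun h' => h (N.uniq h' hx)
      simp [Fo.res, hz, this]
    · simp [Fo.res, hz]

variable [Fintype K]

theorem Node.sum_parts (N : Node Γ U ch) (T : K → ℕ) (hT : ∀ x, x ∉ U → T x = 0) :
    ∑ D : Ch U ch, ∑ x, (if x ∈ D.1 then T x else 0) = ∑ x, T x := by
  rw [sum_comm]
  refine sum_congr rfl fun x _ => ?_
  by_cases hx : x ∈ U
  · rw [sum_eq_single (part ch hx) (fun D _ h => if_neg fun h' => h (N.uniq h' (N.self x hx)))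
      (by simp), if_pos (show x ∈ (part ch hx).1 from N.self x hx)]
  · simp [hT x hx]

theorem Node.dsum_bar (N : Node Γ U ch) {c : K → C} (hc : F.Sup U c)
    (φ : (Ch U ch → Orb C Γ) → ℕ) :
    (F.orb Γ).dsum (F.bar Γ U ch c) φ = F.dsum c fun y => φ (F.bar Γ U ch y) := by
  unfold Fo.dsum
  rw [← N.sum_parts _ fun x hx => by
    rw [not_not.1 (mt (hc x) hx), F.del_o, Multiset.map_zero, Multiset.sum_zero]]
  refine sum_congr rfl fun D _ => ?_
  refine (F.dsum_cls Γ (F.res D.1 c) fun s => φ (update (F.bar Γ U ch c) D s)).symm.trans ?_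
  refine sum_congr rfl fun x _ => ?_
  split_ifs with hx
  · simp only [N.bar_update F hx, Fo.res, if_pos hx]
  · simp only [Fo.res, if_neg hx, F.del_o, Multiset.map_zero, Multiset.sum_zero]

theorem Node.leaves_bar (N : Node Γ U ch) {c : K → C} (hc : F.Sup U c) :
    ∑ D, ((F.orb Γ).del (F.bar Γ U ch c D)).card = (F.cards Γ c).card := by
  have h := N.dsum_bar F hc fun _ => 1
  simpa [Fo.dsum, F.card_cards] using h

theorem Fo.Sup.card {F : Fo C} {c : K → C} (hc : F.Sup U c) (h2 : 2 ≤ (F.cards Γ c).card) {x : K}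
    {s : C} (hs : s ∈ F.del (c x)) :
    F.Sup U (update c x s) ∧ ∃ z, update c x s z ≠ F.o := by
  refine ⟨fun z hz => hc z ?_, ?_⟩
  · by_cases h : z = x
    · intro h1
      rw [← h, h1, F.del_o] at hs
      simp at hs
    · rwa [update_of_ne h] at hz
  · by_contra h
    simp only [not_exists, not_not] at h
    have h1 := F.sum_update hs
    have h3 : (F.cards Γ c).card ≤ ∑ z, F.sz (c z) := (F.orb Γ).card_le (cls Γ c)
    simp only [h, F.sz_o, sum_const_zero] at h1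
    omega

theorem Node.hyp_bar (N : Node Γ U ch) {c c' : K → C} (hc : F.Sup U c) (hc' : F.Sup U c')
    (h2 : 2 ≤ (F.cards Γ c).card) (h : F.cards Γ c = F.cards Γ c') :
    (F.orb Γ).Hyp (grp Γ U ch) (F.bar Γ U ch c) (F.bar Γ U ch c') := by
  classical
  intro φ hφ
  let ψ : Orb C Γ → ℕ := fun a =>
    if h : ∃ y, F.Sup U y ∧ cls Γ y = a then φ (F.bar Γ U ch h.choose) else 0
  have key : ∀ {c : K → C}, F.Sup U c → 2 ≤ (F.cards Γ c).card →
      (F.orb Γ).dsum (F.bar Γ U ch c) φ = ((F.cards Γ c).map ψ).sum := by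
    intro c hc h2
    rw [N.dsum_bar F hc, ← F.dsum_cls]
    refine sum_congr rfl fun x _ => congrArg _ (Multiset.map_congr rfl fun s hs => ?_)
    obtain ⟨h3, z, hz⟩ := hc.card h2 hs
    have h4 : ∃ y, F.Sup U y ∧ cls Γ y = cls Γ (update c x s) := ⟨_, h3, rfl⟩
    obtain ⟨g, hg, e⟩ := (cls_eq Γ).1 h4.choose_spec.2.symm
    obtain ⟨σ, hσ⟩ := N.exists_ind hg (h3 z hz) (h4.choose_spec.1 _ (by rwa [e] at hz))
    simp only [ψ, dif_pos h4]
    conv_lhs => rw [e, F.bar_comp hg hσ, hφ σ ⟨g, hg, hσ⟩]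
  rw [key hc h2, key hc' (h ▸ h2), h]

omit [Fintype K] in
theorem Node.glue₀ (N : Node Γ U ch) {c : K → C} (hc : F.Sup U c) (S : Finset (Ch U ch)) :
    ∀ c' : K → C, F.Sup U c' → F.bar Γ U ch c = F.bar Γ U ch c' →
      (∀ D, D ∉ S → F.res D.1 c = F.res D.1 c') → cls Γ c = cls Γ c' := by
  induction S using Finset.induction_on with
  | empty =>
    intro c' hc' _ h
    refine congrArg (cls Γ) (funext fun x => ?_)
    by_cases hx : x ∈ U
    · have h1 := congrFun (h (part ch hx) (by simp)) x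
      have h2 : x ∈ (part ch hx).1 := N.self x hx
      simpa only [Fo.res, if_pos h2] using h1
    · rw [not_not.1 (mt (hc x) hx), not_not.1 (mt (hc' x) hx)]
  | insert D S _ ih =>
    intro c' hc' hb h
    by_cases hD : F.res D.1 c = F.res D.1 c'
    · refine ih c' hc' hb fun D' hD' => ?_
      by_cases e : D' = D
      · rw [e, hD]
      · exact h D' (by simp [e, hD'])
    obtain ⟨g, hg, e⟩ := (cls_eq Γ).1 (congrFun hb D)
    obtain ⟨z, hz⟩ : ∃ z, F.res D.1 c z ≠ F.o := by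
      by_contra h0
      simp only [not_exists, not_not] at h0
      refine hD (funext fun x => ?_)
      have := h0 (g⁻¹ x)
      rw [e] at this
      rw [h0]
      simpa using this.symm
    have z1 : z ∈ D.1 := by
      by_contra h0
      exact hz (if_neg h0)
    have z2 : g z ∈ D.1 := by
      by_contra h0
      rw [e] at hz
      exact hz (if_neg h0)
    obtain ⟨z3, z4⟩ := N.of_mem z1
    obtain ⟨k, hk, k1, k2⟩ := N.loc g hg z z3 (z4 ▸ z2)
    obtain ⟨σ, hσ⟩ := N.exists_ind hk z3 (by rw [k1 z (z4 ▸ z1)]; exact (N.of_mem z2).1)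
    have m : ∀ w ∈ D.1, g w ∈ D.1 := fun w hw => by
      have := (N.inv g hg z z3 (N.of_mem z2).1 z z3).2 w
      rw [z4, (N.of_mem z2).2] at this
      exact this.1 hw
    rw [z4] at k1 k2
    have r1 : F.res D.1 c = F.res D.1 (c' ∘ k) := funext fun w => by
      by_cases hw : w ∈ D.1
      · rw [e]
        simp only [Fo.res, comp_apply, if_pos hw, if_pos (m w hw), k1 w hw]
      · simp only [Fo.res, if_neg hw]
    have r2 : ∀ D' : Ch U ch, D' ≠ D → F.res D'.1 c' = F.res D'.1 (c' ∘ k) := fun D' h' =>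
      funext fun w => by
        by_cases hw : w ∈ D'.1
        · simp only [Fo.res, comp_apply, if_pos hw, k2 w fun h0 => h' (N.uniq hw h0)]
        · simp only [Fo.res, if_neg hw]
    rw [← cls_comp Γ c' hk]
    refine ih _ (N.sup_comp F hσ hc') (funext fun D' => ?_) fun D' hD' => ?_
    · by_cases e' : D' = D
      · rw [e']
        exact congrArg (cls Γ) r1
      · exact (congrFun hb D').trans (congrArg (cls Γ) (r2 D' e'))
    · by_cases e' : D' = D
      · rw [e', r1]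
      · exact (h D' (by simp [e', hD'])).trans (r2 D' e')

omit [Fintype K] in
theorem Node.glue (N : Node Γ U ch) {c c' : K → C} (hc : F.Sup U c) (hc' : F.Sup U c')
    {σ : Equiv.Perm (Ch U ch)} (hσ : σ ∈ grp Γ U ch)
    (h : F.bar Γ U ch c = F.bar Γ U ch c' ∘ σ) : cls Γ c = cls Γ c' := by
  obtain ⟨g, hg, e⟩ := hσ
  rw [← cls_comp Γ c' hg]
  exact N.glue₀ F hc univ _ (N.sup_comp F e hc') (h.trans (F.bar_comp hg e c').symm) (by simp)

end Pool.Agent.Lib.MP_528c50_co.Cs
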